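import Mathlib
import Pool.Agent.Run7.h547.SG.Spec
import Pool.Agent.Run7.h547.SG.Brg3

set_option autoImplicit false

/-!
The homology of the Allison–Benkart–Gao Lie algebra `ABG(Alt(V))` of the free alternative algebra
on `V = k³` (`k` any field of characteristic zero) contains a trivial or an adjoint `sl₃`-component
in some degree `n` with `2 ≤ n ≤ 7`.
-/

namespace Pool.Agent.Results.MP_894cc0_al.ComponentExists

open Run7.h547.SH

universe u

/-- For every field `k` of characteristic zero there are a free alternative algebra `(A, m)` on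
three generators, its Allison–Benkart–Gao Lie algebra `L`, with bracket `br`, the
Chevalley–Eilenberg boundary `d` of `Λ L` and the action `ρ` of `sl₃` on `Λ L`; and for some `n`
between two and seven the `sl₃`-module `H_n(L, k)` contains a trivial or an adjoint component. -/
theorem result (k : Type u) [Field k] [CharZero k] :
    ∃ (A : Type u) (_ : AddCommGroup A) (_ : Module k A) (m : A → A → A) (x : Fin 3 → A)
      (L : Type u) (_ : AddCommGroup L) (_ : Module k L)
      (t : Matrix (Fin 3) (Fin 3) k → A → L) (w : A → A → L) (br : L → L → L)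
      (d : ExteriorAlgebra k L → ExteriorAlgebra k L)
      (ρ : Matrix (Fin 3) (Fin 3) k → ExteriorAlgebra k L → ExteriorAlgebra k L),
      IsFreeAlt k m x ∧ IsABG k m t w br ∧ IsBd k br d ∧ IsAction k t w ρ ∧
      ∃ n, 2 ≤ n ∧ n ≤ 7 ∧ (HasTriv k d ρ n ∨ HasAdj k d ρ n) :=
  Run7.h547.SG.spec k

end Pool.Agent.Results.MP_894cc0_al.ComponentExists
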